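import Pool.Agent.Lib_helper30.EvenHomeo.Defs2

/-!
# AKFINE: the classical step is fine
-/

open Set Metric Topology

namespace Pool.Agent.EvenHomeo

variable {X : Type} [NormedAddCommGroup X] [NormedSpace ℝ X] {Y B : Type} [MetricSpace Y]
  [MetricSpace B] {M : Type} [MetricSpace M]

theorem akFine_abs_cr_mul (q : ℕ) (x : ℝ) : |cr (q * x)| ≤ q * |cr x| := by
  have h : (q : ℝ) * x = q * cr x + ((q * round x : ℤ) : ℝ) := by
    unfold cr
    push_cast
    ring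
  rw [h, cr_add_int]
  refine (abs_cr_le _).trans ?_
  rw [abs_mul, Nat.abs_cast]

theorem akFine_slab_iff (b : Base X Y B) (p q : ℕ) (w : ℝ) (y : Y) (s θ : ℝ) :
    b.β (y, s, θ) ∈ b.slab p q w ↔
      -(1 / 20) ≤ b.ρ y ∧ |cr ((q : ℝ) * θ - p * s)| ≤ q * w := by
  constructor
  · rintro ⟨y', s', θ', h1, h2, h3⟩
    obtain ⟨rfl, ⟨k, rfl⟩, ⟨l, rfl⟩⟩ := (b.β_eq _ _ _ _ _ _).1 h1
    refine ⟨h2, ?_⟩
    have : (q : ℝ) * (θ + l) - p * (s + k) = (q * θ - p * s) + ((q * l - p * k : ℤ) : ℝ) := by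
      push_cast
      ring
    rwa [this, cr_add_int] at h3
  · exact fun ⟨h1, h2⟩ => ⟨y, s, θ, rfl, h1, h2⟩

/-- representatives with `0 ≤ s < 1` -/
theorem akFine_rep (b : Base X Y B) {z : B} (hz : z ∈ range b.β) :
    ∃ y s θ, 0 ≤ s ∧ s < 1 ∧ z = b.β (y, s, θ) := by
  obtain ⟨y, s, θ, h1, h2, -, h3⟩ := b.exists_rep hz
  exact ⟨y, s, θ, h1, h2, h3⟩

/-- rotated points of the slab -/
theorem akFine_slab_rot (b : Base X Y B) {p q : ℕ} (hq : 1 ≤ q) {w w' κ t : ℝ} {z : B} {k : ℤ}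
    (hz : z ∈ b.slab p q w) (ht : |t - (k : ℝ) / q| ≤ κ) (hw : w + κ ≤ w') :
    b.R t z ∈ b.slab p q w' := by
  have hq0 : (0 : ℝ) < q := by exact_mod_cast hq
  obtain ⟨y, s, θ, rfl, h1, h2⟩ := hz
  rw [b.R_β, akFine_slab_iff]
  refine ⟨h1, ?_⟩
  have h3 : (q : ℝ) * (θ + t) - p * s = ((q * θ - p * s) + q * (t - (k : ℝ) / q)) + (k : ℤ) := by
    field_simp
    ring
  rw [h3, cr_add_int]
  refine (abs_cr_add _ _).trans ?_
  have h4 : |cr ((q : ℝ) * (t - (k : ℝ) / q))| ≤ q * κ := by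
    refine (abs_cr_le _).trans ?_
    rw [abs_mul, abs_of_pos hq0]
    exact mul_le_mul_of_nonneg_left ht hq0.le
  have h5 : (q : ℝ) * (w + κ) ≤ q * w' := mul_le_mul_of_nonneg_left hw hq0.le
  linarith

/-- tubes lie over the slab -/
theorem akFine_tube_slab (b : Base X Y B) {p q : ℕ} (hq : 1 ≤ q) {lam α δ a c w : ℝ} {x : B × T}
    (hx : x ∈ b.tube lam α δ a c) (ha : -2 ≤ a) (hc : c ≤ 2) (hδ : δ ≤ 1 / 20)
    (hw : δ + 2 * |α - (p : ℝ) / q| ≤ w) : x.1 ∈ b.slab p q w := by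
  have hq0 : (0 : ℝ) < q := by exact_mod_cast hq
  obtain ⟨y, θ, σ, υ, h1, h2, h3, rfl⟩ := hx
  rw [b.ta_fst, akFine_slab_iff]
  obtain ⟨h4, h5, -⟩ := ee_le_iff.1 h1
  refine ⟨by linarith, ?_⟩
  have h6 : (q : ℝ) * (θ + α * σ) - p * σ = q * θ + q * ((α - (p : ℝ) / q) * σ) := by
    field_simp
    ring
  rw [h6]
  refine (abs_cr_add _ _).trans ?_
  have h7 := akFine_abs_cr_mul q θ
  have h8 : |cr ((q : ℝ) * ((α - (p : ℝ) / q) * σ))| ≤ q * (2 * |α - (p : ℝ) / q|) := by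
    refine (abs_cr_le _).trans ?_
    rw [abs_mul, abs_of_pos hq0]
    refine mul_le_mul_of_nonneg_left ?_ hq0.le
    rw [abs_mul, mul_comm]
    refine mul_le_mul_of_nonneg_right ?_ (abs_nonneg _)
    rw [abs_le]
    constructor <;> linarith
  have h9 : (q : ℝ) * |cr θ| ≤ q * δ := mul_le_mul_of_nonneg_left h4 hq0.le
  have h10 : (q : ℝ) * (δ + 2 * |α - (p : ℝ) / q|) ≤ q * w := mul_le_mul_of_nonneg_left hw hq0.le
  linarith

/-- the crossing of a point off the slab is untwisted -/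
theorem akFine_cross (b : Base X Y B) {p q : ℕ} (hq : 1 ≤ q) {lam α w κ : ℝ} (hlam : 0 < lam)
    {z : B} (hz : z ∉ b.slab p q w) (hα : |α - (p : ℝ) / q| ≤ κ) (hw : lam + κ ≤ w) :
    b.cross lam α z = 0 := by
  have hq0 : (0 : ℝ) < q := by exact_mod_cast hq
  by_cases hr : z ∈ range b.β
  swap
  · exact b.cross_off lam α hr
  obtain ⟨y, s, θ, h1, h2, rfl⟩ := akFine_rep b hr
  rw [b.cross_β lam α h1 h2]
  rw [akFine_slab_iff, not_and_or] at hz
  rcases hz with hz | hz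
  · exact D_nonpos (by linarith) _
  rw [not_le] at hz
  apply D_zero_of_le hlam
  have h3 : (q : ℝ) * (θ + α * (1 - s)) =
      ((q : ℝ) * θ - p * s) + q * ((α - (p : ℝ) / q) * (1 - s)) + (p : ℤ) := by
    push_cast
    field_simp
    ring
  have h4 := akFine_abs_cr_mul q (θ + α * (1 - s))
  rw [h3, cr_add_int] at h4
  have h5 := abs_cr_add_ge ((q : ℝ) * θ - p * s) (q * ((α - (p : ℝ) / q) * (1 - s)))
  have h6 : |(q : ℝ) * ((α - (p : ℝ) / q) * (1 - s))| ≤ q * κ := by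
    rw [abs_mul, abs_of_pos hq0]
    refine mul_le_mul_of_nonneg_left ?_ hq0.le
    rw [abs_mul]
    calc |α - (p : ℝ) / q| * |1 - s| ≤ κ * 1 := by
          refine mul_le_mul hα ?_ (abs_nonneg _) ((abs_nonneg _).trans hα)
          rw [abs_le]
          constructor <;> linarith
      _ = κ := mul_one κ
  have h7 : (q : ℝ) * (lam + κ) ≤ q * w := mul_le_mul_of_nonneg_left hw hq0.le
  have h8 : (q : ℝ) * lam ≤ q * |cr (θ + α * (1 - s))| := by linarith
  exact le_of_mul_le_mul_left h8 hq0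

/-- the backward crossing of a point off the slab is untwisted -/
theorem akFine_cross' (b : Base X Y B) {p q : ℕ} (hq : 1 ≤ q) {lam α w κ : ℝ} (hlam : 0 < lam)
    {z : B} (hz : z ∉ b.slab p q w) (hα : |α - (p : ℝ) / q| ≤ κ) (hw : lam + κ + κ ≤ w) :
    b.cross lam α (b.R (-α) z) = 0 := by
  refine akFine_cross b (w := w - κ) hq hlam (fun h => hz ?_) hα (by linarith)
  have h1 := akFine_slab_rot b (t := α) (κ := κ) (w' := w) (k := (p : ℤ)) hq h
    (by push_cast; exact hα) (by linarith)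
  rwa [b.R_R_neg] at h1

/-- commutation with the rotation by `k / q` -/
theorem akFine_comm (b : Base X Y B) {q : ℕ} (A : B × T ≃ₜ B × T)
    (hA : ∀ z υ, A (b.R (1 / (q : ℝ)) z, υ) = (b.R (1 / (q : ℝ)) (A (z, υ)).1, (A (z, υ)).2))
    (k : ℕ) (z : B) (υ : T) :
    A (b.R ((k : ℝ) / q) z, υ) = (b.R ((k : ℝ) / q) (A (z, υ)).1, (A (z, υ)).2) := by
  induction k with
  | zero => simp [b.R_zero]
  | succ k ih =>
    have h1 : ((k + 1 : ℕ) : ℝ) / q = 1 / q + (k : ℝ) / q := by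
      push_cast
      ring
    rw [h1, b.R_add, hA, ih, b.R_add]

theorem akFine_comm' (b : Base X Y B) {q : ℕ} (A : B × T ≃ₜ B × T)
    (hA : ∀ z υ, A (b.R (1 / (q : ℝ)) z, υ) = (b.R (1 / (q : ℝ)) (A (z, υ)).1, (A (z, υ)).2))
    (k : ℕ) (z : B) (υ : T) :
    A (b.R (-((k : ℝ) / q)) z, υ) = (b.R (-((k : ℝ) / q)) (A (z, υ)).1, (A (z, υ)).2) := by
  have h := akFine_comm b A hA k (b.R (-((k : ℝ) / q)) z) υ
  rw [b.R_R_neg] at h
  rw [h]
  simp only [b.R_neg_R]

theorem akFine [CompactSpace B] [CompactSpace M] (b : Base X Y B) (e : M)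
    (_hOff : Off_Stmt b M e) (hUR : URex_Stmt b M e) : AKFine_Stmt b M e := by
  intro lam δ C C' f p q A O ε hlam hlam' hql hq hpq hα1 hα2 hδ hδ' hf hO hZ hAO hAq hC' hε
  have hq0 : (0 : ℝ) < q := by exact_mod_cast hq
  obtain ⟨hf0, hf1, hf2, hf3, hf4⟩ := hf
  obtain ⟨κ₁, hκ₁, hUR1⟩ := hUR lam C ε hlam hlam' hε
  obtain ⟨κ₂, hκ₂, hUR2⟩ := hUR lam C' ε hlam hlam' hε
  obtain ⟨κ₃, hκ₃, hcl⟩ := D_close hlam hlam' hδ hκ₁
  obtain ⟨κ₄, hκ₄, htb⟩ := b.tube_close hlam hlam' hδ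
  refine ⟨min (min (lam / 8) δ) (min (min κ₁ κ₂) (min κ₃ κ₄)), by positivity, ?_⟩
  intro α' δ' f' hα' hδ0 hδ1 hf'
  obtain ⟨hf0', hf1', hf2', hf3', hf4'⟩ := hf'
  set κ := min (min (lam / 8) δ) (min (min κ₁ κ₂) (min κ₃ κ₄)) with hκ
  have k0 : κ ≤ lam / 8 := (min_le_left _ _).trans (min_le_left _ _)
  have k5 : κ ≤ δ := (min_le_left _ _).trans (min_le_right _ _)
  have k1 : κ ≤ κ₁ := (min_le_right _ _).trans ((min_le_left _ _).trans (min_le_left _ _))
  have k2 : κ ≤ κ₂ := (min_le_right _ _).trans ((min_le_left _ _).trans (min_le_right _ _))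
  have k3 : κ ≤ κ₃ := (min_le_right _ _).trans ((min_le_right _ _).trans (min_le_left _ _))
  have k4 : κ ≤ κ₄ := (min_le_right _ _).trans ((min_le_right _ _).trans (min_le_right _ _))
  have hα'' : |α' - (p : ℝ) / q| ≤ κ := hα'.le
  -- tubes
  have htube : ∀ a c : ℝ, -2 ≤ a → c ≤ 2 → ∀ a' c' : ℝ, a' ≤ a → c ≤ c' →
      ∀ x ∈ b.tube lam α' δ' a c, A x = x ∧ x ∈ b.tube lam ((p : ℝ) / q) δ a' c' := by
    intro a c ha hc a' c' ha' hc' x hx
    refine ⟨hAO x (hZ (akFine_tube_slab b hq hx ha hc (by linarith) (by linarith))), ?_⟩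
    obtain ⟨y, θ, σ, υ, h1, h2, h3, rfl⟩ := hx
    obtain ⟨θ₁, υ₁, h4, h5⟩ := htb y θ σ ((p : ℝ) / q) α' υ 0 (by linarith)
      (by rw [abs_le]; constructor <;> linarith) (by rw [norm_zero]; exact hκ₄.le)
      (by rw [abs_sub_comm]; linarith)
    refine ⟨y, θ₁, σ, υ₁, h4, by linarith, by linarith, ?_⟩
    rw [← h5, add_zero]
    rfl
  have hWt : ∀ x ∈ b.Wt lam α' δ', A x = x ∧ x ∈ b.Wt lam ((p : ℝ) / q) δ :=
    htube (-δ') (1 + δ') (by linarith) (by linarith) _ _ (by linarith) (by linarith)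
  have hWm : ∀ x ∈ b.Wm lam α' δ', A x = x ∧ x ∈ b.Wm lam ((p : ℝ) / q) δ :=
    htube (-1 - δ') δ' (by linarith) (by linarith) _ _ (by linarith) (by linarith)
  have hWW : C'.W α' δ' ⊆ C.W ((p : ℝ) / q) δ := by
    rintro x ⟨w, hw, rfl⟩
    obtain ⟨h1, h2⟩ := hWt w hw
    exact ⟨w, h2, by rw [hC', h1]⟩
  have hslab : ∀ x : B × T, x.1 ∈ b.slab p q (3 / 2 * lam) → A x = x := fun x hx =>
    hAO x (hZ (by
      have := akFine_slab_rot b (t := 0) (κ := 0) (w' := 2 * lam) (k := 0) hq hx (by simp)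
        (by linarith)
      rwa [b.R_zero] at this))
  -- the image of a point off the slab is off the slab
  have hoff : ∀ x : B × T, x.1 ∉ b.slab p q (3 / 2 * lam) →
      (A x).1 ∉ b.slab p q (3 / 2 * lam) := by
    intro x hx h
    have h1 : A (A x) = A x := hslab _ h
    have h2 : A x = x := A.injective h1
    rw [h2] at h
    exact hx h
  refine ⟨hWW, ?_, ?_, ?_⟩
  · rintro x ⟨w, hw, hx⟩
    have h1 : x = f'.symm (C'.h w) := by
      have : f' x = C'.h w := hx.symm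
      rw [← this, Homeomorph.symm_apply_apply]
    obtain ⟨w', hw', h2⟩ := hf4' w hw
    obtain ⟨h3, h4⟩ := hWm w' hw'
    have h5 : x = C.h w' := by rw [h1, ← h2, hC', h3]
    show f x ∈ C.W ((p : ℝ) / q) δ
    rw [h5]
    exact hf3 w' h4
  · intro x hx
    change f x ∉ C.W ((p : ℝ) / q) δ at hx
    show dist (f' x) (f x) < ε
    obtain ⟨⟨z, υ⟩, rfl⟩ := C'.surj x
    have hP : A (z, υ) ∉ b.Wm lam ((p : ℝ) / q) δ := fun h => hx (by
      rw [hC']
      exact hf3 _ h)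
    have hp : (z, υ) ∉ b.Wm lam α' δ' := fun h => hP (by
      obtain ⟨h1, h2⟩ := hWm _ h
      rwa [h1])
    rw [hf1' _ hp]
    conv_lhs => rw [hC' (z, υ)]
    rw [hf1 _ hP]
    by_cases hz : z ∈ b.slab p q (3 / 2 * lam)
    · have h1 : A (z, υ) = (z, υ) := hslab _ hz
      rw [h1] at hP ⊢
      have h2 : A (b.L lam α' (z, υ)) = b.L lam α' (z, υ) := by
        apply hAO
        apply hZ
        rw [b.L_fst]
        exact akFine_slab_rot b (κ := κ) (k := (p : ℤ)) hq hz (by push_cast; exact hα'')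
          (by linarith)
      rw [hC', h2]
      obtain ⟨y, s, θ, hs, hs', rfl⟩ := akFine_rep b (z := z) (by
        obtain ⟨y, s, θ, h, -⟩ := hz
        exact ⟨_, h.symm⟩)
      have h3 := b.off_Wm hδ hs hs' hP
      rw [b.L_β lam α' hs hs', b.L_β lam ((p : ℝ) / q) hs hs']
      have h4 := hcl (b.ρ y) (θ + (p : ℝ) / q * (1 - s)) (θ + α' * (1 - s)) (by
        have : θ + (p : ℝ) / q * (1 - s) - (θ + α' * (1 - s)) =
          -((α' - (p : ℝ) / q) * (1 - s)) := by ring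
        rw [this, abs_neg, abs_mul]
        calc |α' - (p : ℝ) / q| * |1 - s| ≤ κ * 1 := by
              refine mul_le_mul hα'' ?_ (abs_nonneg _) ((abs_nonneg _).trans hα'')
              rw [abs_le]
              constructor <;> linarith
          _ ≤ κ₃ := by linarith) h3
      have h5 := hUR1 (b.β (y, s, θ + (p : ℝ) / q))
        (υ + D lam (b.ρ y) (θ + (p : ℝ) / q * (1 - s))) (α' - (p : ℝ) / q)
        (D lam (b.ρ y) (θ + α' * (1 - s)) - D lam (b.ρ y) (θ + (p : ℝ) / q * (1 - s)))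
        (by linarith) (by rw [norm_sub_rev]; exact h4)
      rw [b.R_β] at h5
      have h6 : θ + (p : ℝ) / q + (α' - (p : ℝ) / q) = θ + α' := by ring
      have h7 : υ + D lam (b.ρ y) (θ + (p : ℝ) / q * (1 - s)) +
          (D lam (b.ρ y) (θ + α' * (1 - s)) - D lam (b.ρ y) (θ + (p : ℝ) / q * (1 - s))) =
          υ + D lam (b.ρ y) (θ + α' * (1 - s)) := by abel
      rw [h6, h7] at h5
      exact h5
    · have h1 : b.L lam α' (z, υ) = (b.R α' z, υ) := by
        show (b.R α' z, υ + b.cross lam α' z) = _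
        rw [akFine_cross b hq hlam hz hα'' (by linarith), add_zero]
      have h2 : b.L lam ((p : ℝ) / q) (A (z, υ)) = A (b.R ((p : ℝ) / q) z, υ) := by
        rw [akFine_comm b A hAq]
        show (b.R ((p : ℝ) / q) (A (z, υ)).1, (A (z, υ)).2 + b.cross lam ((p : ℝ) / q)
          (A (z, υ)).1) = _
        rw [akFine_cross b (κ := 0) hq hlam (hoff _ hz) (by simp) (by linarith), add_zero]
      rw [h1, h2, ← hC']
      have h3 := hUR2 (b.R ((p : ℝ) / q) z) υ (α' - (p : ℝ) / q) 0 (by linarith)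
        (by rw [norm_zero]; exact hκ₂.le)
      rw [← b.R_add, sub_add_cancel, add_zero] at h3
      exact h3
  · intro x hx
    change x ∉ C.W ((p : ℝ) / q) δ at hx
    show dist (f'.symm x) (f.symm x) < ε
    obtain ⟨⟨z, υ⟩, rfl⟩ := C'.surj x
    have hP : A (z, υ) ∉ b.Wt lam ((p : ℝ) / q) δ := fun h => hx (by
      rw [hC']
      exact ⟨_, h, rfl⟩)
    have hp : (z, υ) ∉ b.Wt lam α' δ' := fun h => hP (by
      obtain ⟨h1, h2⟩ := hWt _ h
      rwa [h1])
    rw [hf2' _ hp]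
    conv_lhs => rw [hC' (z, υ)]
    rw [hf2 _ hP]
    by_cases hz : z ∈ b.slab p q (3 / 2 * lam)
    · have h1 : A (z, υ) = (z, υ) := hslab _ hz
      rw [h1] at hP ⊢
      have h2 : A ((b.L lam α').symm (z, υ)) = (b.L lam α').symm (z, υ) := by
        apply hAO
        apply hZ
        rw [b.L_symm_fst]
        refine akFine_slab_rot b (κ := κ) (k := -(p : ℤ)) hq hz ?_ (by linarith)
        have : -α' - ((-(p : ℤ) : ℤ) : ℝ) / q = -(α' - (p : ℝ) / q) := by
          push_cast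
          ring
        rw [this, abs_neg]
        exact hα''
      rw [hC', h2]
      obtain ⟨y, s, θ, hs, hs', rfl⟩ := akFine_rep b (z := z) (by
        obtain ⟨y, s, θ, h, -⟩ := hz
        exact ⟨_, h.symm⟩)
      have h3 := b.off_Wt hδ hs hs' hP
      rw [b.L_symm_β lam α' hs hs', b.L_symm_β lam ((p : ℝ) / q) hs hs']
      have h4 := hcl (b.ρ y) (θ - (p : ℝ) / q * s) (θ - α' * s) (by
        have : θ - (p : ℝ) / q * s - (θ - α' * s) = (α' - (p : ℝ) / q) * s := by ring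
        rw [this, abs_mul]
        calc |α' - (p : ℝ) / q| * |s| ≤ κ * 1 := by
              refine mul_le_mul hα'' ?_ (abs_nonneg _) ((abs_nonneg _).trans hα'')
              rw [abs_le]
              constructor <;> linarith
          _ ≤ κ₃ := by linarith) h3
      have h5 := hUR1 (b.β (y, s, θ - (p : ℝ) / q))
        (υ - D lam (b.ρ y) (θ - (p : ℝ) / q * s)) (-(α' - (p : ℝ) / q))
        (D lam (b.ρ y) (θ - (p : ℝ) / q * s) - D lam (b.ρ y) (θ - α' * s))
        (by rw [abs_neg]; linarith) h4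
      rw [b.R_β] at h5
      have h6 : θ - (p : ℝ) / q + -(α' - (p : ℝ) / q) = θ - α' := by ring
      have h7 : υ - D lam (b.ρ y) (θ - (p : ℝ) / q * s) +
          (D lam (b.ρ y) (θ - (p : ℝ) / q * s) - D lam (b.ρ y) (θ - α' * s)) =
          υ - D lam (b.ρ y) (θ - α' * s) := by abel
      rw [h6, h7] at h5
      exact h5
    · have h1 : (b.L lam α').symm (z, υ) = (b.R (-α') z, υ) := by
        show (b.R (-α') z, υ - b.cross lam α' (b.R (-α') z)) = _
        rw [akFine_cross' b hq hlam hz hα'' (by linarith), sub_zero]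
      have h2 : (b.L lam ((p : ℝ) / q)).symm (A (z, υ)) = A (b.R (-((p : ℝ) / q)) z, υ) := by
        rw [akFine_comm' b A hAq]
        show (b.R (-((p : ℝ) / q)) (A (z, υ)).1, (A (z, υ)).2 - b.cross lam ((p : ℝ) / q)
          (b.R (-((p : ℝ) / q)) (A (z, υ)).1)) = _
        rw [akFine_cross' b (κ := 0) hq hlam (hoff _ hz) (by simp) (by linarith), sub_zero]
      rw [h1, h2, ← hC']
      have h3 := hUR2 (b.R (-((p : ℝ) / q)) z) υ (-(α' - (p : ℝ) / q)) 0
        (by rw [abs_neg]; linarith) (by rw [norm_zero]; exact hκ₂.le)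
      rw [← b.R_add, add_zero] at h3
      have h4 : -(α' - (p : ℝ) / q) + -((p : ℝ) / q) = -α' := by ring
      rw [h4] at h3
      exact h3

end Pool.Agent.EvenHomeo
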