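import Pool.Agent.Lib_helper79.EvenHomeo.Modulus

/-!
# SMALL: thin short tubes have small image
-/

open Set Metric Topology

namespace Pool.Agent.EvenHomeo

variable {X : Type} [NormedAddCommGroup X] [NormedSpace ℝ X] {Y B : Type} [MetricSpace Y]
  [MetricSpace B] {M : Type} [MetricSpace M]

theorem small_cut_E (b : Base X Y B) {lam : ℝ} {e : M} (C : Coord b lam M e) {y : Y} {υ : T}
    (h0 : 0 ≤ b.ρ y) (h : b.ρ y = 0 ∨ υ = 0) : b.cut lam C.h (y, 0, 0, υ) = e := by
  rw [modulus_cut_lt b lam C.h y zero_lt_one, C.hE]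
  exact ⟨y, h0, rfl, h⟩

/-- near the poles the fibres are small -/
theorem small_poles [CompactSpace B] [CompactSpace M] (b : Base X Y B) {lam : ℝ} {e : M}
    (C : Coord b lam M e) {η : ℝ} (hη : 0 < η) : ∃ m : ℝ, 0 < m ∧ ∀ y (υ : T),
      -(1 / 20) ≤ b.ρ y → |b.ρ y| < m → dist (b.cut lam C.h (y, 0, 0, υ)) e < η := by
  set K : Set (Y × T) := {y | -(1 / 20) ≤ b.ρ y} ×ˢ (univ : Set T) with hK
  have hKc : IsCompact K := b.ρ_cpt.prod isCompact_univ
  have hcont : ContinuousOn (fun x : Y × T => dist (b.cut lam C.h (x.1, 0, 0, x.2)) e) K := by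
    have h1 : ContinuousOn (fun x : Y × T => b.cut lam C.h (x.1, 0, 0, x.2)) K := by
      refine C.kcont.comp (f := fun x : Y × T => (x.1, (0 : ℝ), (0 : ℝ), x.2)) ?_ ?_
      · exact (by fun_prop : Continuous fun x : Y × T => (x.1, (0 : ℝ), (0 : ℝ), x.2)).continuousOn
      · intro x _
        exact ⟨le_rfl, zero_le_one⟩
    exact (continuous_id.dist continuous_const).comp_continuousOn h1
  have hSc : IsCompact (K ∩ (fun x : Y × T => dist (b.cut lam C.h (x.1, 0, 0, x.2)) e) ⁻¹'
      Ici η) :=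
    hKc.of_isClosed_subset (hcont.preimage_isClosed_of_isClosed hKc.isClosed isClosed_Ici)
      inter_subset_left
  rcases (K ∩ (fun x : Y × T => dist (b.cut lam C.h (x.1, 0, 0, x.2)) e) ⁻¹'
      Ici η).eq_empty_or_nonempty with hemp | hne
  · refine ⟨1, one_pos, fun y υ hy _ => ?_⟩
    by_contra hcon
    have : (y, υ) ∈ (∅ : Set (Y × T)) := by
      rw [← hemp]
      exact ⟨⟨hy, mem_univ _⟩, not_lt.1 hcon⟩
    exact this
  · have hρ : Continuous fun x : Y × T => |b.ρ x.1| := (b.ρ_cont.comp continuous_fst).abs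
    obtain ⟨⟨y₀, υ₀⟩, hx₀, hmin⟩ := hSc.exists_isMinOn hne hρ.continuousOn
    refine ⟨|b.ρ y₀|, ?_, ?_⟩
    · apply abs_pos.2
      intro h0
      have h1 := hx₀.2
      simp only [mem_preimage, mem_Ici] at h1
      rw [small_cut_E b C h0.ge (Or.inl h0), dist_self] at h1
      linarith
    · intro y υ hy hlt
      by_contra hcon
      have h2 : (y, υ) ∈ K ∩ (fun x : Y × T => dist (b.cut lam C.h (x.1, 0, 0, x.2)) e) ⁻¹'
          Ici η := ⟨⟨hy, mem_univ _⟩, not_lt.1 hcon⟩
      have h1 : |b.ρ y₀| ≤ |b.ρ y| := hmin h2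
      linarith

theorem small [CompactSpace B] [CompactSpace M] (b : Base X Y B) (e : M) : Small_Stmt b M e := by
  intro lam C η hlam hlam' hη
  have hη3 : 0 < η / 3 := by linarith
  obtain ⟨δ, hδ, hunif⟩ := modulus_unif b C hη3
  obtain ⟨m, hm, hpole⟩ := small_poles b C hη3
  refine ⟨min (1 / 20) (min (δ / 3) (m / 2)), by positivity, ?_⟩
  set η₁ := min (1 / 20 : ℝ) (min (δ / 3) (m / 2)) with hη₁
  have k1 : η₁ ≤ 1 / 20 := min_le_left _ _
  have k2 : η₁ ≤ δ / 3 := (min_le_right _ _).trans (min_le_left _ _)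
  have k3 : η₁ ≤ m / 2 := (min_le_right _ _).trans (min_le_right _ _)
  rintro α hα0 hα1 p ⟨y, θ₀, σ, υ, h1, h2, h3, rfl⟩
  obtain ⟨h4, h5, h6⟩ := ee_le_iff.1 h1
  have hθ : b.ta lam α y θ₀ σ υ = b.ta lam α y (cr θ₀) σ υ := by
    have h1 := b.ta_add_int lam α y (cr θ₀) σ υ (round θ₀)
    rw [← h1]
    congr 1
    unfold cr
    ring
  rw [hθ]
  set θ := cr θ₀ with hθdef
  have hy : -(1 / 20) ≤ b.ρ y := by linarith
  have hσ : |σ| ≤ η₁ := abs_le.2 ⟨h2, h3⟩
  have hασ : |α * σ| ≤ η₁ := by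
    rw [abs_mul, abs_of_nonneg hα0]
    calc α * |σ| ≤ 1 * |σ| := by gcongr
      _ ≤ η₁ := by rw [one_mul]; exact hσ
  have hθασ : |θ + α * σ| ≤ 2 * η₁ := by
    have := abs_add_le θ (α * σ)
    linarith
  -- the last distance
  have hlast : dist (b.cut lam C.h (y, 0, 0, υ)) e < η / 3 := by
    rcases le_or_gt (b.ρ y) η₁ with hr | hr
    · apply hpole y υ hy
      have : |b.ρ y| ≤ η₁ := abs_le.2 ⟨by linarith, hr⟩
      linarith
    · have hυ : ‖υ‖ ≤ η₁ := by
        rcases h6 with h6 | h6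
        · exact h6
        · linarith
      have hη₁0 : 0 ≤ η₁ := (abs_nonneg _).trans hσ
      have hE := small_cut_E b C (y := y) (υ := 0) (by linarith) (Or.inr rfl)
      conv_lhs =>
        arg 2
        rw [← hE]
      refine hunif _ (modulus_mem b _ hy le_rfl zero_le_one (by simp)) _
        (modulus_mem b _ hy le_rfl zero_le_one (by simp)) ?_
      refine modulus_dist _ _ _ _ _ _ _ hδ (by simpa using hδ) (by simpa using hδ) ?_
      rw [sub_zero]
      linarith
  rcases le_total 0 σ with h0 | h0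
  · have h7 : dist (C.h (b.ta lam α y θ σ υ)) (b.cut lam C.h (y, 0, 0, υ)) < η / 3 := by
      rw [modulus_ta_nonneg b C α y θ h0 (by linarith)]
      refine hunif _ (modulus_mem b _ hy h0 (by linarith) (by linarith)) _
        (modulus_mem b _ hy le_rfl zero_le_one (by simp)) ?_
      refine modulus_dist _ _ _ _ _ _ _ hδ ?_ ?_ (by simpa using hδ)
      · rw [sub_zero]
        linarith
      · rw [sub_zero]
        linarith
    have := dist_triangle (C.h (b.ta lam α y θ σ υ)) (b.cut lam C.h (y, 0, 0, υ)) e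
    linarith
  · have h7 : dist (C.h (b.ta lam α y θ σ υ)) (C.h (b.ta lam α y θ 0 υ)) < η / 3 := by
      rw [modulus_ta_nonpos b C α y θ h0, modulus_ta_nonpos b C α y θ le_rfl]
      refine hunif _ (modulus_mem b _ hy (by linarith) (by linarith) (by linarith)) _
        (modulus_mem b _ hy (by linarith) (by linarith) (by
          rw [mul_zero, add_zero]
          linarith)) ?_
      refine modulus_dist _ _ _ _ _ _ _ hδ ?_ ?_ (by simpa using hδ)
      · rw [add_sub_add_left_eq_sub, sub_zero]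
        linarith
      · rw [add_sub_add_left_eq_sub, mul_zero, sub_zero]
        linarith
    have h8 : dist (C.h (b.ta lam α y θ 0 υ)) (b.cut lam C.h (y, 0, 0, υ)) < η / 3 := by
      rw [modulus_ta_nonneg b C α y θ le_rfl zero_lt_one]
      refine hunif _ (modulus_mem b _ hy le_rfl zero_le_one (by
          rw [mul_zero, add_zero]
          linarith)) _
        (modulus_mem b _ hy le_rfl zero_le_one (by simp)) ?_
      refine modulus_dist _ _ _ _ _ _ _ hδ (by simpa using hδ) ?_ (by simpa using hδ)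
      rw [mul_zero, add_zero, sub_zero]
      linarith
    have := dist_triangle (C.h (b.ta lam α y θ σ υ)) (C.h (b.ta lam α y θ 0 υ)) e
    have := dist_triangle (C.h (b.ta lam α y θ 0 υ)) (b.cut lam C.h (y, 0, 0, υ)) e
    linarith

end Pool.Agent.EvenHomeo
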